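import Pool.Agent.Lib.H46K.Main

/-!
# MP_5f89c9_gt: 3-connected intrinsically knotted graphs never have exactly one odd link

For every finite simple 3-connected intrinsically knotted graph `G`, every polygonal embedding `f` of
`G` in `ℝ³` and every direction `d` in general position: it is impossible that exactly one unordered
pair of disjoint cycles of `G` has an odd linking number. As every embedding of an intrinsically
knotted graph contains a link with odd linking number (Robertson, Seymour, Thomas), every
embedding of `G` contains at least two distinct nonsplit links.

All the definitions are in `Pool/Agent/Lib/H46K/Defs.lean`, the paper proof in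
`Pool/Agent/Lib/H46K/PROOF.md`.
-/

open H46K

namespace Pool.Agent.Results.MP_5f89c9_gt.ThreeConnected

/-- The number of odd two-component links in an embedding of a 3-connected intrinsically knotted graph
is never one. -/
theorem result {V : Type} [Fintype V] [DecidableEq V] (G : SimpleGraph V) (h3 : ThreeConn G)
    (hIK : IsIK G) (f : SpatialGraph G) (d : P3) (hd : Generic f d) :
    ¬ ExactlyOneOddLink f d :=
  H46K.main G h3 hIK f d hd

end Pool.Agent.Results.MP_5f89c9_gt.ThreeConnected
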